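import Pool.Agent.LZF.Main
import Pool.Agent.RNI.BrS
import Pool.Agent.RNI.SaA
import Pool.Agent.RNI.IsA
import Pool.Agent.RNI.VcV

/-!
# MP_053ed5_lc: a model of ZFC in which Vaught's conjecture holds and Statement S fails

There is a wellfounded model of `ZFC` in which Vaught's conjecture is true and Statement S is false. So `ZFC` does
not prove that Vaught's conjecture implies Statement S.

The universe of the model is the class of all ordinals. A real `a` is fixed. At stage `α` the first (in the order
of the keys) definable subset of a structure `(γ; relations)`, `γ ≤ α`, which is not yet on the list becomes the set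
with number `α`. The relations are membership, the order, the values of Skolem terms, the keys and the real `a`.

* `Pool.Agent.LZF.zfc`: the model satisfies `ZFC` (reflection; definability with respect to all relations).
* `Pool.Agent.LZF.uniq`: condensation, in the form of the uniqueness of the wellfounded structures which satisfy
  the axioms `LStr`.
* `Pool.Agent.LZF.thin_PA`, `coana_PP`, `cofinal_PA`: the coanalytic set `PA a` of the codes of the levels of the
  model has no perfect subset, and it is cofinal in the Turing degrees of the model.
* `Pool.Agent.RNI.relNI_LZF`: therefore Statement S fails in the model (group trees and torsors; certificates).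
* `Pool.Agent.LZF.ch_set`, `vc_model`: the continuum hypothesis, hence Vaught's conjecture, holds in the model.
* `Pool.Agent.RNI.VCIn_V`, `Pool.Agent.RNI.SIn_V`: for the universe of sets itself, `VCIn` is Vaught's conjecture
  (`NI.VC`) and `SIn` is Statement S (`NI.StatementS`).
-/

namespace Pool.Agent.Results.MP_053ed5_lc.ModelWithoutS

open Pool.Agent.LZF Pool.Agent.H55

/-- There is a wellfounded model of `ZFC` in which Vaught's conjecture holds and Statement S fails. -/
theorem result : ∃ (M : Type 1) (E : M → M → Prop),
    WellFounded E ∧ CS.ZFC E ∧ VCIn E ∧ ¬ SIn (Reals E) :=
  Pool.Agent.LZF.main Pool.Agent.RNI.relNI_LZF Pool.Agent.RNI.satAna Pool.Agent.RNI.isoAna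

end Pool.Agent.Results.MP_053ed5_lc.ModelWithoutS
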